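import Mathlib
import Pool.Agent.Q21.GD.Approx

set_option autoImplicit false

/-!
# Depth versus word length in the first Grigorchuk group: the optimal constant in the lower bound

`Gamma` is the first Grigorchuk group, `len g` the word length with respect to `{a, b, c, d}` and
`depth g` the least `n` such that all sections of `g` at level `n` lie in `{1, a, b, c, d}`
(definitions in `Pool/Agent/Q30/Grig.lean` and `Pool/Agent/Q30/GrigDepth.lean`).

We prove that the optimal `μ` in `d(g) ≥ μ log₂|g| + C` is `μ* = log 2 / log λ ≈ 0.7674`, where `λ` is the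
positive root of `x³ = x² + 2x + 4`; it is attained.  Moreover the largest word length of an element of
depth at most `n` has the exact order of magnitude `λ^n`.
-/

namespace Pool.Agent.Results.MP_7efe7b_al.OptimalConstant

open Q30.Grig
open Q21.GD (WL)
open Pool.Agent.Results.MP_03d093_al.SphereBall (Lt gen ev)

/-- The set of all `mu` for which there is a constant `C` with
`d(g) ≥ mu * log₂|g| + C` for all `g ≠ 1` in the Grigorchuk group. -/
def admissible : Set ℝ :=
  {mu | ∃ C : ℝ, ∀ g ∈ Gamma, g ≠ 1 → mu * Real.logb 2 (len g) + C ≤ (depth g : ℝ)}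

theorem gen_mem_gens (s : Lt) : gen s ∈ gens := by
  unfold gens
  rw [Q21.GD.q_a, Q21.GD.q_b, Q21.GD.q_c, Q21.GD.q_d]
  cases s
  · exact Or.inl rfl
  · exact Or.inr (Or.inl rfl)
  · exact Or.inr (Or.inr (Or.inl rfl))
  · exact Or.inr (Or.inr (Or.inr rfl))

theorem len_le_of_ev (w : List Lt) : len (ev w) ≤ w.length := by
  refine Nat.sInf_le ⟨w.map gen, List.length_map _, ?_, rfl⟩
  intro x hx
  rw [List.mem_map] at hx
  obtain ⟨s, -, rfl⟩ := hx
  exact gen_mem_gens s

theorem exists_word {g : Equiv.Perm (List Bool)} (hg : g ∈ Gamma) :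
    ∃ w : List Lt, w.length = len g ∧ ev w = g := by
  obtain ⟨l, hl, hl', rfl⟩ := exists_list hg
  have key : ∀ l : List (Equiv.Perm (List Bool)), (∀ x ∈ l, x ∈ gens) →
      ∃ w : List Lt, w.length = l.length ∧ ev w = l.prod := by
    intro l
    induction l with
    | nil => intro _; exact ⟨[], rfl, rfl⟩
    | cons x l ih =>
      intro h
      obtain ⟨w, h1, h2⟩ := ih fun y hy => h y (List.mem_cons_of_mem _ hy)
      have hx := h x List.mem_cons_self
      obtain ⟨s, rfl⟩ : ∃ s : Lt, gen s = x := by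
        unfold gens at hx
        rw [Q21.GD.q_a, Q21.GD.q_b, Q21.GD.q_c, Q21.GD.q_d] at hx
        rcases hx with hx | hx | hx | hx
        · exact ⟨Lt.A, hx.symm⟩
        · exact ⟨Lt.B, hx.symm⟩
        · exact ⟨Lt.C, hx.symm⟩
        · exact ⟨Lt.D, hx.symm⟩
      refine ⟨s :: w, by simp [h1], ?_⟩
      rw [Pool.Agent.Results.MP_03d093_al.SphereBall.ev_cons, h2, List.prod_cons]
  obtain ⟨w, h1, h2⟩ := key l hl'
  exact ⟨w, h1.trans hl, h2⟩

theorem short_depth {g : Equiv.Perm (List Bool)} (hg : g ∈ Gamma) : SectionsShort g (depth g) :=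
  Nat.sInf_mem (s := {n | SectionsShort g n}) ⟨_, short_clog hg⟩

theorem one_le_len {g : Equiv.Perm (List Bool)} (hg : g ∈ Gamma) (hg1 : g ≠ 1) : 1 ≤ len g := by
  rw [Nat.one_le_iff_ne_zero]
  intro h0
  apply hg1
  obtain ⟨l, hl, -, rfl⟩ := exists_list hg
  rw [h0, List.length_eq_zero_iff] at hl
  subst hl
  rfl

theorem a_facts : a ∈ Gamma ∧ a ≠ 1 ∧ depth a = 0 := by
  refine ⟨Subgroup.subset_closure (by simp), ?_, ?_⟩
  · intro h
    have h1 : a [false] = [true] := rfl
    rw [h] at h1
    exact absurd h1 (by decide)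
  · refine Nat.eq_zero_of_le_zero (Nat.sInf_le ?_)
    intro u hu
    rw [List.length_eq_zero_iff] at hu
    subst hu
    exact ⟨a, by simp, fun w => rfl⟩

/-- the largest length of an element of depth at most `n` is of order `λ^n` -/
theorem two_sided : ∃ c C : ℝ, 0 < c ∧ 0 < C ∧ ∀ n : ℕ,
    (∀ g ∈ Gamma, depth g ≤ n → (len g : ℝ) ≤ C * Pool.Agent.H776R2.Grig.lam ^ n) ∧
    ∃ g ∈ Gamma, g ≠ 1 ∧ depth g ≤ n ∧ c * Pool.Agent.H776R2.Grig.lam ^ n ≤ (len g : ℝ) := by
  obtain ⟨C, hC, h1⟩ := Q21.GD.length_of_short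
  obtain ⟨c, k, hc, h2⟩ := Q21.GD.exists_long
  have hl0 := Pool.Agent.H776R2.Grig.lam_pos
  have hl1 : (1 : ℝ) ≤ Pool.Agent.H776R2.Grig.lam := by
    have := Pool.Agent.H776R2.Grig.lam_gt; linarith
  set lam := Pool.Agent.H776R2.Grig.lam with hlam
  have hk2 : (1 : ℝ) ≤ lam ^ (k + 2) := one_le_pow₀ hl1
  refine ⟨min (c / lam ^ k) (1 / lam ^ (k + 2)), C, by positivity, hC, fun n => ⟨?_, ?_⟩⟩
  · intro g hg hd
    obtain ⟨w, -, hw⟩ := exists_word hg
    have hs : SectionsShort (ev w) n := by
      rw [hw]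
      exact short_mono' (short_depth hg) hd
    obtain ⟨w', hw', hev⟩ := h1 n w hs
    have h3 := len_le_of_ev w'
    rw [hev, hw] at h3
    exact (Nat.cast_le.2 h3).trans hw'
  · rcases Nat.lt_or_ge n (k + 2) with hn | hn
    · obtain ⟨ha1, ha2, ha3⟩ := a_facts
      refine ⟨a, ha1, ha2, by rw [ha3]; exact Nat.zero_le _, ?_⟩
      have h3 : (1 : ℝ) ≤ len a := by exact_mod_cast one_le_len ha1 ha2
      have h4 : lam ^ n ≤ lam ^ (k + 2) := pow_le_pow_right₀ hl1 hn.le
      calc min (c / lam ^ k) (1 / lam ^ (k + 2)) * lam ^ n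
          ≤ (1 / lam ^ (k + 2)) * lam ^ (k + 2) :=
            mul_le_mul (min_le_right _ _) h4 (by positivity) (by positivity)
        _ = 1 := by rw [one_div, inv_mul_cancel₀ (by positivity)]
        _ ≤ _ := h3
    · obtain ⟨m, rfl⟩ : ∃ m, n = m + k := ⟨n - k, by omega⟩
      obtain ⟨w, hw, hw'⟩ := h2 m (by omega)
      have hG : ev w ∈ Gamma := by
        rw [Q21.GD.q_Gamma]
        exact Pool.Agent.Results.MP_03d093_al.SphereBall.ev_mem w
      have hlen : c * lam ^ m ≤ (len (ev w) : ℝ) := by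
        obtain ⟨w', h3, h4⟩ := exists_word hG
        rw [← h3]
        exact hw' w' h4
      refine ⟨ev w, hG, ?_, Nat.sInf_le hw, ?_⟩
      · intro h
        have h3 : len (ev w) = 0 := by
          have := len_le_of_ev []
          rw [h]
          simpa using this
        rw [h3] at hlen
        have : 0 < c * lam ^ m := by positivity
        simp at hlen
        linarith
      · refine le_trans ?_ hlen
        calc min (c / lam ^ k) (1 / lam ^ (k + 2)) * lam ^ (m + k)
            ≤ (c / lam ^ k) * lam ^ (m + k) :=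
              mul_le_mul_of_nonneg_right (min_le_left _ _) (by positivity)
          _ = c * lam ^ m := by rw [pow_add]; field_simp

theorem admissible_eq :
    admissible = Set.Iic (Real.log 2 / Real.log Pool.Agent.H776R2.Grig.lam) := by
  obtain ⟨c, C, hc, hC, h⟩ := two_sided
  have hl2 : (2 : ℝ) < Pool.Agent.H776R2.Grig.lam := by
    have := Pool.Agent.H776R2.Grig.lam_gt; linarith
  set lam := Pool.Agent.H776R2.Grig.lam with hlam
  have hlog2 : 0 < Real.log 2 := Real.log_pos (by norm_num)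
  have hlogl : 0 < Real.log lam := Real.log_pos (by linarith)
  set α := Real.log 2 / Real.log lam with hα
  have hα0 : 0 < α := by positivity
  have hαl : α * Real.logb 2 lam = 1 := by
    rw [hα, Real.logb]
    field_simp
  have hlogb : 0 < Real.logb 2 lam := by
    rw [Real.logb]; positivity
  ext mu
  rw [Set.mem_Iic]
  constructor
  · rintro ⟨D, hD⟩
    by_contra hmu
    push Not at hmu
    have h1 : 1 < mu * Real.logb 2 lam := by
      rw [← hαl]
      exact mul_lt_mul_of_pos_right hmu hlogb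
    obtain ⟨n, hn⟩ := exists_nat_gt ((-(mu * Real.logb 2 c) - D) / (mu * Real.logb 2 lam - 1))
    rw [div_lt_iff₀ (by linarith)] at hn
    obtain ⟨g, hg, hg1, hd, hlen⟩ := (h n).2
    have h2 := hD g hg hg1
    have h3 : Real.logb 2 c + n * Real.logb 2 lam ≤ Real.logb 2 (len g) := by
      have h4 : Real.logb 2 (c * lam ^ n) = Real.logb 2 c + n * Real.logb 2 lam := by
        rw [Real.logb_mul hc.ne' (by positivity), Real.logb_pow]
      rw [← h4]
      exact Real.logb_le_logb_of_le (by norm_num) (by positivity) hlen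
    have h5 : (depth g : ℝ) ≤ n := by exact_mod_cast hd
    have h6 : mu * (Real.logb 2 c + n * Real.logb 2 lam) ≤ mu * Real.logb 2 (len g) :=
      mul_le_mul_of_nonneg_left h3 (hα0.trans hmu).le
    nlinarith
  · intro hmu
    refine ⟨-(α * Real.logb 2 C), fun g hg hg1 => ?_⟩
    have h1 := (h (depth g)).1 g hg le_rfl
    have hlen : (1 : ℝ) ≤ len g := by exact_mod_cast one_le_len hg hg1
    have h2 : Real.logb 2 (len g) ≤ Real.logb 2 C + depth g * Real.logb 2 lam := by
      have h4 : Real.logb 2 (C * lam ^ (depth g)) =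
          Real.logb 2 C + depth g * Real.logb 2 lam := by
        rw [Real.logb_mul hC.ne' (by positivity), Real.logb_pow]
      rw [← h4]
      exact Real.logb_le_logb_of_le (by norm_num) (by linarith) h1
    have h3 : 0 ≤ Real.logb 2 (len g) := Real.logb_nonneg (by norm_num) hlen
    have h4 : mu * Real.logb 2 (len g) ≤ α * Real.logb 2 (len g) :=
      mul_le_mul_of_nonneg_right hmu h3
    have h5 : α * Real.logb 2 (len g) ≤ α * (Real.logb 2 C + depth g * Real.logb 2 lam) :=
      mul_le_mul_of_nonneg_left h2 hα0.le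
    have h6 : α * (Real.logb 2 C + depth g * Real.logb 2 lam) = α * Real.logb 2 C + depth g := by
      rw [mul_add]
      congr 1
      calc α * (depth g * Real.logb 2 lam) = depth g * (α * Real.logb 2 lam) := by ring
        _ = depth g := by rw [hαl, mul_one]
    linarith

theorem numeric : 23 / 30 < Real.log 2 / Real.log Pool.Agent.H776R2.Grig.lam ∧
    Real.log 2 / Real.log Pool.Agent.H776R2.Grig.lam < 10 / 13 := by
  have h1 := Pool.Agent.H776R2.Grig.lam_gt
  have h2 := Pool.Agent.H776R2.Grig.lam_lt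
  set lam := Pool.Agent.H776R2.Grig.lam with hlam
  have hl0 : 0 < lam := by linarith
  have hlogl : 0 < Real.log lam := Real.log_pos (by linarith)
  constructor
  · rw [lt_div_iff₀ hlogl]
    have h3 : lam ^ 23 < 2 ^ 30 := by
      calc lam ^ 23 < 2.468 ^ 23 := pow_lt_pow_left₀ h2 hl0.le (by norm_num)
        _ ≤ 2 ^ 30 := by norm_num
    have h4 := Real.log_lt_log (by positivity) h3
    rw [Real.log_pow, Real.log_pow] at h4
    push_cast at h4
    linarith
  · rw [div_lt_iff₀ hlogl]
    have h3 : (2 : ℝ) ^ 13 < lam ^ 10 := by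
      calc (2 : ℝ) ^ 13 ≤ 2.465 ^ 10 := by norm_num
        _ < lam ^ 10 := pow_lt_pow_left₀ h1 (by norm_num) (by norm_num)
    have h4 := Real.log_lt_log (by positivity) h3
    rw [Real.log_pow, Real.log_pow] at h4
    push_cast at h4
    linarith

/-- **The optimal constant in the lower bound for the depth.** Let `λ` be the positive root of
`x³ = x² + 2x + 4`.  Then `d(g) ≥ μ log₂|g| + C` holds for all `g ≠ 1` with some constant `C` if and only
if `μ ≤ log 2 / log λ`; so `μ* = log 2 / log λ`, `23/30 < μ* < 10/13`, and it is attained.  The largest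
length of an element of depth at most `n` lies between `c λ^n` and `C λ^n`. -/
theorem result :
    (∃ lam : ℝ, (0 < lam ∧ lam ^ 3 = lam ^ 2 + 2 * lam + 4 ∧
        ∀ x : ℝ, 0 < x → x ^ 3 = x ^ 2 + 2 * x + 4 → x = lam) ∧
      admissible = Set.Iic (Real.log 2 / Real.log lam) ∧
      sSup admissible = Real.log 2 / Real.log lam ∧
      23 / 30 < Real.log 2 / Real.log lam ∧ Real.log 2 / Real.log lam < 10 / 13 ∧
      ∃ c C : ℝ, 0 < c ∧ 0 < C ∧ ∀ n : ℕ,
        (∀ g ∈ Gamma, depth g ≤ n → (len g : ℝ) ≤ C * lam ^ n) ∧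
        ∃ g ∈ Gamma, g ≠ 1 ∧ depth g ≤ n ∧ c * lam ^ n ≤ (len g : ℝ)) ∧
    ∃ mu ∈ admissible, 1 / 2 < mu := by
  refine ⟨⟨Pool.Agent.H776R2.Grig.lam, ⟨Pool.Agent.H776R2.Grig.lam_pos,
    Pool.Agent.H776R2.Grig.lam_eq, fun x hx hx' => ?_⟩, admissible_eq, ?_, numeric.1, numeric.2,
    two_sided⟩, Real.log 2 / Real.log Pool.Agent.H776R2.Grig.lam, ?_, ?_⟩
  · exact Pool.Agent.H776R2.Grig.exists_unique_lam.unique ⟨hx, hx'⟩
      ⟨Pool.Agent.H776R2.Grig.lam_pos, Pool.Agent.H776R2.Grig.lam_eq⟩
  · rw [admissible_eq, csSup_Iic]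
  · rw [admissible_eq]
    exact Set.mem_Iic.2 le_rfl
  · have := numeric.1
    linarith

end Pool.Agent.Results.MP_7efe7b_al.OptimalConstant
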